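import Pool.Agent.W459.ZE.Example

set_option autoImplicit false

/-!
# Equisingularity strata after blowing up are not local analytic products

`V ⊆ ℂ^4` is the hypersurface `x y (x - y) (x - t y) + z^5 = 0`, `W` the line `x = y = z = 0`. At all
but finitely many points `Q = (t, 0, 0, 0)` of `W` the hypersurface `V` is equisingular along `W`.
The blowing-up `V^*` of `V` along `W` is, in the affine chart `(t, x', y', z)` with
`T (t, x', y', z) = (t, x' z, y' z, z)`, the smooth hypersurface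
`x' y' (x' - y') (x' - t y') + z = 0`, so `V^*` has one stratum in this chart and the stratum of
`T⁻¹(W_1)` through `Q^* = (t, 0, 0, 0)` is
`{z = 0, x' y' (x' - y') (x' - t y') = 0}`: four sheets which meet along a curve, with cross ratio
`t`. It is not locally an analytic product over `W_1`, because the cross ratio varies.
-/

namespace Pool.Agent.Results.MP_e920bf_ag.NoAnalyticProduct

open Pool.Agent.W459.ZE

theorem result :
    let V : Set (Fin 4 → ℂ) := {p | p 1 * p 2 * (p 1 - p 2) * (p 1 - p 0 * p 2) + p 3 ^ 5 = 0}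
    let W : Set (Fin 4 → ℂ) := {p | p 1 = 0 ∧ p 2 = 0 ∧ p 3 = 0}
    W ⊆ V ∧ IsIrred W ∧
    (∀ 𝒮 : Set (Set (Fin 4 → ℂ)),
      IsStratification (strictTransform V) 𝒮 ↔ 𝒮 = {strictTransform V}) ∧
    {t : ℂ | ![t, 0, 0, 0] ∉ Eqs W V}.Finite ∧
    ∀ t : ℂ, t ≠ 0 → t ≠ 1 → ![t, 0, 0, 0] ∈ Eqs W V →
      ![t, 0, 0, 0] ∈ strictTransform V ∧ blowUpChart ![t, 0, 0, 0] = ![t, 0, 0, 0] ∧
      ∀ 𝒮 : Set (Set (Fin 4 → ℂ)), IsStratification (strictTransform V) 𝒮 →
        ∀ S ∈ 𝒮, ![t, 0, 0, 0] ∈ S →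
          ¬ HasProduct blowUpChart (Eqs W V) (S ∩ blowUpChart ⁻¹' (Eqs W V)) ![t, 0, 0, 0] := by
  intro V W
  change WW ⊆ VV ∧ IsIrred WW ∧
    (∀ 𝒮 : Set (Set (Fin 4 → ℂ)),
      IsStratification (strictTransform VV) 𝒮 ↔ 𝒮 = {strictTransform VV}) ∧
    {t : ℂ | ![t, 0, 0, 0] ∉ Eqs WW VV}.Finite ∧
    ∀ t : ℂ, t ≠ 0 → t ≠ 1 → ![t, 0, 0, 0] ∈ Eqs WW VV →
      ![t, 0, 0, 0] ∈ strictTransform VV ∧ blowUpChart ![t, 0, 0, 0] = ![t, 0, 0, 0] ∧
      ∀ 𝒮 : Set (Set (Fin 4 → ℂ)), IsStratification (strictTransform VV) 𝒮 →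
        ∀ S ∈ 𝒮, ![t, 0, 0, 0] ∈ S →
          ¬ HasProduct blowUpChart (Eqs WW VV) (S ∩ blowUpChart ⁻¹' (Eqs WW VV)) ![t, 0, 0, 0]
  rw [strictTransform_VV]
  refine ⟨?_, ?_, isStratification_VS, finite_not_Eqs, ?_⟩
  · rintro p ⟨h1, h2, h3⟩
    change p 1 * p 2 * (p 1 - p 2) * (p 1 - p 0 * p 2) + p 3 ^ 5 = 0
    rw [h1, h2, h3]
    ring
  · have hc : IsZClosed WW := by
      apply Set.Subset.antisymm _ (subset_zcl _)
      intro x hx
      refine ⟨?_, ?_, ?_⟩
      · have := hx (MvPolynomial.X 1) (fun a ha => by rw [MvPolynomial.eval_X]; exact ha.1)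
        rwa [MvPolynomial.eval_X] at this
      · have := hx (MvPolynomial.X 2) (fun a ha => by rw [MvPolynomial.eval_X]; exact ha.2.1)
        rwa [MvPolynomial.eval_X] at this
      · have := hx (MvPolynomial.X 3) (fun a ha => by rw [MvPolynomial.eval_X]; exact ha.2.2)
        rwa [MvPolynomial.eval_X] at this
    apply isIrred_of_param (m := 1) ![MvPolynomial.X 0, 0, 0, 0] WW hc
    ext q
    constructor
    · rintro ⟨h1, h2, h3⟩
      refine ⟨![q 0], ?_⟩
      funext j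
      fin_cases j
      · simp
      · simpa using h1.symm
      · simpa using h2.symm
      · simpa using h3.symm
    · rintro ⟨v, rfl⟩
      refine ⟨?_, ?_, ?_⟩ <;> simp
  · intro t h0 h1 ht
    refine ⟨?_, ?_, ?_⟩
    · rw [mem_VS, map_add, eval_GP, MvPolynomial.eval_X]
      simp [G]
    · funext j
      fin_cases j <;> simp [blowUpChart]
    · intro 𝒮 h𝒮 S hS _
      rw [(isStratification_VS 𝒮).1 h𝒮, Set.mem_singleton_iff] at hS
      rw [hS]
      exact not_hasProduct t h0 h1 ht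

end Pool.Agent.Results.MP_e920bf_ag.NoAnalyticProduct
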